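import Pool.Agent.Work.MP_ca14f8_co.QE.Defs

/-!
Statements of the block QE of MP_ca14f8_co (quadratic exponent for principal evaluations).
-/

set_option autoImplicit false
open Classical

namespace Pool.Agent.Work.MP_ca14f8_co.QE

/-! ### A1: transition formula -/

/-- `v < v t_ab` is a cover. -/
def Cov {n : ℕ} (v : Equiv.Perm (Fin n)) (a b : Fin n) : Prop :=
  a < b ∧ v a < v b ∧ ∀ c, a < c → c < b → ¬ (v a < v c ∧ v c < v b)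

def StStab : Prop := ∀ (n : ℕ) (w : Equiv.Perm (Fin n)) (w' : Equiv.Perm (Fin (n + 1))),
  (∀ i : Fin n, w' i.castSucc = (w i).castSucc) → Ups w' = Ups w

def StCovLen : Prop := ∀ (n : ℕ) (v : Equiv.Perm (Fin n)) (a b : Fin n), Cov v a b →
  (inv (v * Equiv.swap a b)).card = (inv v).card + 1

/-- adjacent values `p`, positions `a < b`. -/
def StCovBij : Prop := ∀ (n : ℕ) (v : Equiv.Perm (Fin n)) (a b : Fin n) (p : Fin n × Fin n),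
  p.2.val = p.1.val + 1 → a < b →
  ((Cov v a b ∧ p ∈ Desc (v * Equiv.swap a b) ∧
      Equiv.swap p.1 p.2 * (v * Equiv.swap a b) ≠ v) ↔
   (p ∈ Desc v ∧ Cov (Equiv.swap p.1 p.2 * v) a b ∧
      (Equiv.swap p.1 p.2 * v) * Equiv.swap a b ≠ v))

def StMonk : Prop := ∀ (n : ℕ) (v : Equiv.Perm (Fin (n + 1))) (r : Fin (n + 1)),
  v (Fin.last n) = Fin.last n → r ≠ Fin.last n →
  Ups v = ∑ b ∈ Finset.univ.filter (fun b => Cov v r b), Ups (v * Equiv.swap r b) -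
    ∑ a ∈ Finset.univ.filter (fun a => Cov v a r), Ups (v * Equiv.swap a r)

def StTR : Prop := ∀ (n : ℕ) (w v : Equiv.Perm (Fin n)) (r s : Fin n), TrD w v r s →
  Ups w = Ups v + ∑ i ∈ Trs w r s, Ups (v * Equiv.swap i r)

def StEX : Prop := ∀ (n : ℕ) (w : Equiv.Perm (Fin n)), w ≠ 1 →
  ∃ r s, TrD w (w * Equiv.swap r s) r s

/-- columns of the Rothe diagrams of `v` and of `w_i = v t_ir`. -/
def StComb : Prop := ∀ (n : ℕ) (w v : Equiv.Perm (Fin n)) (r s : Fin n), TrD w v r s →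
  (∀ j, j ≠ w s → Ic v j = Ic w j) ∧ r ∈ Ic w (w s) ∧ Ic v (w s) = (Ic w (w s)).erase r ∧
  (∀ j, ∀ a ∈ Ic w j, a ≤ r) ∧
  ∀ i ∈ Trs w r s,
    i ∉ Ic w (w s) ∧ i ∉ Ic w (w i) ∧ r ∉ Ic w (w i) ∧
    Ic (v * Equiv.swap i r) (w i) = insert i ((Ic w (w s)).erase r ∪ Ic w (w i)) ∧
    Ic (v * Equiv.swap i r) (w s) = (Ic w (w s)).erase r ∩ Ic w (w i) ∧
    (∀ j, j ≠ w s → j ≠ w i → Ic (v * Equiv.swap i r) j =
      if r ∈ Ic w j ∧ i ∉ Ic w j then insert i ((Ic w j).erase r) else Ic w j) ∧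
    (Finset.univ.filter (fun j => r ∈ Ic w j ∧ i ∉ Ic w j)).card = mm w r (w i).val ∧
    (Finset.univ.filter (fun j => r ∈ Ic v j ∧ i ∉ Ic v j)).card + 1 = mm w r (w i).val ∧
    (∀ i' ∈ Trs w r s, i' < i → i' ∈ Ic w (w i) ∧ i' ∉ Ic w (w s) ∧ w i < w i')

def StMU : Prop := ∀ (n : ℕ) (w v : Equiv.Perm (Fin n)) (r s : Fin n), TrD w v r s →
  mu v < mu w ∧ ∀ i ∈ Trs w r s, mu (v * Equiv.swap i r) < mu w

/-! ### A3: the abstract module theorem -/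

def StGEN : Prop := ∀ (M : Type) [AddCommGroup M] [Module ℚ M] (A B : Module.End ℚ M) (c : ℕ) (u : M),
  Commute A B → (∀ t : ℚ, t ≠ 0 → ((A + t • B) ^ c) u = 0) →
  ∀ i j, i + j = c → (A ^ i * B ^ j) u = 0

def StL3 : Prop := ∀ (M : Type) [AddCommGroup M] [Module ℚ M] (E q p : Module.End ℚ M) (μ γ : ℕ)
  (u : M), E * q - q * E = p → Commute p E → Commute p q → (E ^ (μ + 1)) u = 0 → (q ^ γ) u = 0 →
  ∀ i j, μ + γ ≤ i + j → (p ^ i * q ^ j) u = 0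

/-- shift: `[E, y] = Q`, `E u = 0`, and `Z` commutes with everything. -/
def StSH : Prop := ∀ (M : Type) [AddCommGroup M] [Module ℚ M] (E y Q Z : Module.End ℚ M) (i : ℕ)
  (u : M), E * y - y * E = Q → Commute Q E → Commute Q y → Commute Z E → Commute Z Q → Commute Z y →
  E u = 0 → (y ^ i * Z) u = 0 → ∀ a b, a + b = i → (Q ^ a * y ^ b * Z) u = 0

/-- `[E, y] = P`, `P` commutes with both. -/
def StBin : Prop := ∀ (M : Type) [AddCommGroup M] [Module ℚ M] (E y P : Module.End ℚ M) (m β : ℕ)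
  (u : M), E * y - y * E = P → Commute P E → Commute P y →
  (∀ j, j ≤ m → j ≤ β → (P ^ j * E ^ (m - j)) u = 0) → (E ^ m * y ^ β) u = 0

def StHard : Prop := ∀ (M : Type) [AddCommGroup M] [Module ℚ M] (E R P z : Module.End ℚ M)
  (m m' D β : ℕ) (u : M), E * z - z * E = R → Commute R E → Commute R z → Commute P E →
  Commute P R → z u = 0 → (E ^ (m' + 1)) u = 0 → (P ^ D) u = 0 → m' + D = m + β →
  (E ^ m * (R - P) ^ β) u = 0

def StD : Prop := ∀ (n : ℕ) (M : Type) [AddCommGroup M] [Module ℚ M]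
  (e : Fin n → Fin n → Module.End ℚ M) (w v : Equiv.Perm (Fin n)) (r s : Fin n) (u : M),
  IsRep e → TrD w v r s → Con w e u → ∀ t : ℕ, t ≤ (w s).val →
  (∀ i ∈ Trs w r s, t ≤ (w i).val → ((e i r) ^ (mm w r (w i).val)) u = 0) →
  ∀ σ, Sup w r t σ → ((Lin e r σ) ^ (mm w r t)) u = 0

def StBb : Prop := ∀ (n : ℕ) (M : Type) [AddCommGroup M] [Module ℚ M]
  (e : Fin n → Fin n → Module.End ℚ M) (w v : Equiv.Perm (Fin n)) (r s : Fin n) (u : M),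
  IsRep e → TrD w v r s → Con w e u →
  (∀ i ∈ Trs w r s, ((e i r) ^ (mm w r (w i).val)) u = 0) → Con v e u

/-- the constraint `(b, t)` of `w_i` for the vector `e_ir^β u`. -/
def CcAt {n : ℕ} {M : Type} [AddCommGroup M] [Module ℚ M]
    (e : Fin n → Fin n → Module.End ℚ M) (w v : Equiv.Perm (Fin n)) (r i : Fin n) (u : M)
    (b : Fin n) (t : ℕ) : Prop :=
  ∀ σ, Sup (v * Equiv.swap i r) b t σ →
    ((Lin e b σ) ^ (mm (v * Equiv.swap i r) b t + 1)) (((e i r) ^ (mm w r (w i).val)) u) = 0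

/-- the hypotheses of `StCc`. -/
def CcH {n : ℕ} {M : Type} [AddCommGroup M] [Module ℚ M]
    (e : Fin n → Fin n → Module.End ℚ M) (w v : Equiv.Perm (Fin n)) (r s i : Fin n) (u : M) :
    Prop :=
  IsRep e ∧ TrD w v r s ∧ Con w e u ∧ i ∈ Trs w r s ∧
  (∀ i' ∈ Trs w r s, i' < i → ((e i' r) ^ (mm w r (w i').val)) u = 0)

def StCcA : Prop := ∀ (n : ℕ) (M : Type) [AddCommGroup M] [Module ℚ M]
  (e : Fin n → Fin n → Module.End ℚ M) (w v : Equiv.Perm (Fin n)) (r s i : Fin n) (u : M),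
  CcH e w v r s i u → ∀ b t, (r < b ∨ b = r ∨ b < i) → CcAt e w v r i u b t

def StCcB : Prop := ∀ (n : ℕ) (M : Type) [AddCommGroup M] [Module ℚ M]
  (e : Fin n → Fin n → Module.End ℚ M) (w v : Equiv.Perm (Fin n)) (r s i : Fin n) (u : M),
  CcH e w v r s i u → ∀ t, CcAt e w v r i u i t

def StCcC : Prop := ∀ (n : ℕ) (M : Type) [AddCommGroup M] [Module ℚ M]
  (e : Fin n → Fin n → Module.End ℚ M) (w v : Equiv.Perm (Fin n)) (r s i : Fin n) (u : M),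
  CcH e w v r s i u → ∀ b t, i < b → b < r →
    (w b < w i ∨ (w s < w b ∧ (t ≤ (w i).val ∨ (w s).val < t))) → CcAt e w v r i u b t

def StCcD : Prop := ∀ (n : ℕ) (M : Type) [AddCommGroup M] [Module ℚ M]
  (e : Fin n → Fin n → Module.End ℚ M) (w v : Equiv.Perm (Fin n)) (r s i : Fin n) (u : M),
  CcH e w v r s i u → ∀ b t, i < b → b < r → w s < w b → (w i).val < t → t ≤ (w s).val →
    CcAt e w v r i u b t

def StCc : Prop := ∀ (n : ℕ) (M : Type) [AddCommGroup M] [Module ℚ M]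
  (e : Fin n → Fin n → Module.End ℚ M) (w v : Equiv.Perm (Fin n)) (r s i : Fin n) (u : M),
  CcH e w v r s i u → Con (v * Equiv.swap i r) e (((e i r) ^ (mm w r (w i).val)) u)

/-- `StBb` modulo a stable submodule. -/
def StBbF : Prop := ∀ (n : ℕ) (M : Type) [AddCommGroup M] [Module ℚ M]
  (e : Fin n → Fin n → Module.End ℚ M) (w v : Equiv.Perm (Fin n)) (r s : Fin n)
  (F : Submodule ℚ M) (u : M), IsRep e → Stab e F → TrD w v r s → ConF w e F u →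
  (∀ i ∈ Trs w r s, ((e i r) ^ (mm w r (w i).val)) u ∈ F) → ConF v e F u

/-- `StCc` modulo a stable submodule. -/
def StCcF : Prop := ∀ (n : ℕ) (M : Type) [AddCommGroup M] [Module ℚ M]
  (e : Fin n → Fin n → Module.End ℚ M) (w v : Equiv.Perm (Fin n)) (r s i : Fin n)
  (F : Submodule ℚ M) (u : M), IsRep e → Stab e F → TrD w v r s → ConF w e F u →
  i ∈ Trs w r s →
  (∀ i' ∈ Trs w r s, i' < i → ((e i' r) ^ (mm w r (w i').val)) u ∈ F) →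
  ConF (v * Equiv.swap i r) e F (((e i r) ^ (mm w r (w i).val)) u)

/-- combinatorics of `mm`, part 1. -/
def StMM1 : Prop := ∀ (n : ℕ) (w v : Equiv.Perm (Fin n)) (r s : Fin n), TrD w v r s →
  (∀ b (t : ℕ), r < b → mm w b t = 0 ∧ mm v b t = 0) ∧
  (∀ b (t : ℕ), b < r → mm v b t = mm w b t) ∧
  (∀ t : ℕ, (w s).val < t → mm v r t = mm w r t) ∧
  (∀ t : ℕ, t ≤ (w s).val → mm v r t + 1 = mm w r t)

/-- part 2: `b > r`, `b = r`, `b < i`, `b = i`. -/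
def StMM2 : Prop := ∀ (n : ℕ) (w v : Equiv.Perm (Fin n)) (r s : Fin n), TrD w v r s →
  ∀ i ∈ Trs w r s,
    (∀ b (t : ℕ), r < b → mm (v * Equiv.swap i r) b t = 0) ∧
    (∀ t : ℕ, t ≤ (w i).val → mm (v * Equiv.swap i r) r t + mm w r (w i).val = mm w r t) ∧
    (∀ t : ℕ, (w i).val < t → mm (v * Equiv.swap i r) r t = 0) ∧
    (∀ b (t : ℕ), b < i → mm (v * Equiv.swap i r) b t = mm w b t) ∧
    (∀ t : ℕ, t ≤ (w i).val → mm (v * Equiv.swap i r) i t = mm w i t + mm w r (w i).val) ∧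
    (∀ t : ℕ, (w i).val < t → t ≤ (w s).val →
      mm (v * Equiv.swap i r) i t + 1 = mm w r t ∧ mm w i t = 0) ∧
    (∀ t : ℕ, (w s).val < t → mm (v * Equiv.swap i r) i t = 0 ∧ mm w i t = 0 ∧ mm w r t = 0)

/-- part 3: `i < b < r`. -/
def StMM3 : Prop := ∀ (n : ℕ) (w v : Equiv.Perm (Fin n)) (r s : Fin n), TrD w v r s →
  ∀ i ∈ Trs w r s,
    (∀ b, i < b → b < r → w b < w i ∨ w s < w b) ∧
    (∀ b (t : ℕ), i < b → b < r → w b < w i → mm (v * Equiv.swap i r) b t = mm w b t ∧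
      ((w i).val < t → mm w b t = 0)) ∧
    (∀ b (t : ℕ), i < b → b < r → w s < w b → (t ≤ (w i).val ∨ (w s).val < t) →
      mm (v * Equiv.swap i r) b t = mm w b t) ∧
    (∀ b (t : ℕ), i < b → b < r → w s < w b → (w i).val < t → t ≤ (w s).val →
      mm (v * Equiv.swap i r) b t + 1 = mm w b t ∧
      mm w b (w i).val + mm w r t = mm w b t + mm w r (w i).val)

def StA3 : Prop := ∀ (n : ℕ) (M : Type) [AddCommGroup M] [Module ℚ M]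
  (e : Fin n → Fin n → Module.End ℚ M) (w : Equiv.Perm (Fin n)) (F : Submodule ℚ M) (u : M),
  IsRep e → Stab e F → ConF w e F u →
  ∃ T : Finset M, (T.card : ℚ) ≤ Ups w ∧ Stab e (F ⊔ Submodule.span ℚ (T : Set M)) ∧
    u ∈ F ⊔ Submodule.span ℚ (T : Set M)

/-! ### A3': the tensor model -/

/-- The matrix `A` acts in the box `x`. -/
noncomputable def op {β : Type} [DecidableEq β] {n : ℕ} (x : β) (A : Matrix (Fin n) (Fin n) ℚ) :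
    Module.End ℚ ((β → Fin n) → ℚ) where
  toFun := fun t ρ => ∑ c, A (ρ x) c * t (Function.update ρ x c)
  map_add' := by
    intro s t; ext ρ; simp [mul_add, Finset.sum_add_distrib]
  map_smul' := by
    intro c t; ext ρ; simp [Finset.mul_sum, mul_left_comm]

noncomputable def eop {β : Type} [DecidableEq β] [Fintype β] {n : ℕ} (A : Matrix (Fin n) (Fin n) ℚ) :
    Module.End ℚ ((β → Fin n) → ℚ) := ∑ x : β, op x A

/-- the vector of the products of minors of `X`. -/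
noncomputable def UU {n : ℕ} (I : Fin n → Finset (Fin n)) (X : Matrix (Fin n) (Fin n) ℚ) :
    ((Σ j, I j) → Fin n) → ℚ :=
  fun ρ => ∏ j, (Matrix.of (fun (a b : I j) => X (ρ ⟨j, a⟩) b)).det

def StRep : Prop := ∀ (β : Type) [DecidableEq β] [Fintype β] (n : ℕ),
  IsRep (fun a b : Fin n => (eop (β := β) (Matrix.single a b (1 : ℚ))))

/-- exponential formula. -/
def StExp : Prop := ∀ (n : ℕ) (I : Fin n → Finset (Fin n)) (A X : Matrix (Fin n) (Fin n) ℚ),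
  A * A = 0 → ((eop (β := (Σ j, I j)) A) ^ (Fintype.card (Σ j, I j) + 1)) = 0 ∧
  ∀ t : ℚ, UU I ((1 + t • A) * X) = ∑ k ∈ Finset.range (Fintype.card (Σ j, I j) + 1),
    (t ^ k / (k.factorial : ℚ)) • ((eop A) ^ k) (UU I X)

def StUnip : Prop := ∀ (n : ℕ) (I : Fin n → Finset (Fin n))
  (Z : Submodule ℚ (((Σ j, I j) → Fin n) → ℚ)),
  Stab (fun a b : Fin n => (eop (Matrix.single a b (1 : ℚ)))) Z → UU I 1 ∈ Z →
  ∀ X ∈ UT n, UU I X ∈ Z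

def StUCon : Prop := ∀ (n : ℕ) (w : Equiv.Perm (Fin n)),
  Con w (fun a b : Fin n => (eop (Matrix.single a b (1 : ℚ)))) (UU (Ic w) 1)

/-- row rank equals column rank. -/
def StRK : Prop := ∀ (P Z : Type) [Fintype P] (F : P → Z → ℚ),
  Module.finrank ℚ (Submodule.span ℚ (Set.range F)) =
  Module.finrank ℚ (Submodule.span ℚ (Set.range (fun (z : Z) (p : P) => F p z)))

def StVle : Prop := ∀ (n : ℕ) (w : Equiv.Perm (Fin n)), ((dV (UT n) (Ic w) : ℕ) : ℚ) ≤ Ups w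

/-! ### A2: lower bound for `dV` -/

/-- minor with column map `c`. -/
noncomputable def mc {n : ℕ} (I : Finset (Fin n)) (c ρ : Fin n → Fin n)
    (X : Matrix (Fin n) (Fin n) ℚ) : ℚ :=
  (Matrix.of (fun (a b : I) => X (ρ a) (c b))).det

noncomputable def ext {n : ℕ} (f : UT n → ℚ) (X : Matrix (Fin n) (Fin n) ℚ) : ℚ :=
  if h : X ∈ UT n then f ⟨X, h⟩ else 0

/-- finite difference along the column operation `col r += t col i`. -/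
noncomputable def tau {n : ℕ} (i r : Fin n) (β : ℕ) (f : UT n → ℚ) : UT n → ℚ := fun X =>
  ∑ t ∈ Finset.range (β + 1), (-1 : ℚ) ^ (β - t) * (β.choose t : ℚ) *
    ext f (X.1 * (1 + (t : ℚ) • Matrix.single i r (1 : ℚ)))

def StA2a : Prop := ∀ (n : ℕ) (w v : Equiv.Perm (Fin n)) (r s : Fin n), TrD w v r s →
  VS (UT n) (Ic v) ≤ VS (UT n) (Ic w)

def StTau : Prop := ∀ (n : ℕ) (I : Fin n → Finset (Fin n)) (ρ : Fin n → Fin n → Fin n)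
  (i r : Fin n) (β : ℕ), i < r →
  ((Finset.univ.filter (fun j => r ∈ I j ∧ i ∉ I j)).card < β →
    tau i r β (fun X => FF I ρ X.1) = 0) ∧
  ((Finset.univ.filter (fun j => r ∈ I j ∧ i ∉ I j)).card = β →
    tau i r β (fun X => FF I ρ X.1) = fun X => (β.factorial : ℚ) *
      ∏ j, (if r ∈ I j ∧ i ∉ I j then mc (I j) (Function.update id r i) (ρ j) X.1
        else mn (I j) (ρ j) X.1))

/-- The antisymmetrised product. -/
noncomputable def SL {n : ℕ} (P C : Finset (Fin n)) (r z : Fin n) (ρ₁ ρ₂ : Fin n → Fin n)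
    (X : Matrix (Fin n) (Fin n) ℚ) : ℚ :=
  ∑ π : Equiv.Perm (↥(insert r (P ∪ C))), ((Equiv.Perm.sign π : ℤ) : ℚ) *
    (mc (insert r P) (Function.update id r z) (fun a => ρ₁ (Equiv.Perm.ofSubtype π a)) X *
     mn C (fun a => if a ∈ P then ρ₂ a else ρ₁ (Equiv.Perm.ofSubtype π a)) X)

def StLAP : Prop := ∀ (n : ℕ) (P C : Finset (Fin n)) (r z : Fin n) (ρ₁ ρ₂ : Fin n → Fin n)
  (X : Matrix (Fin n) (Fin n) ℚ), r ∉ P → r ∉ C → z ∉ P →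
  (z ∈ C → SL P C r z ρ₁ ρ₂ X = 0) ∧
  (z ∉ C → SL P C r z ρ₁ ρ₂ X = ((P.card + 1).factorial : ℚ) * ((C \ P).card.factorial : ℚ) *
    (mc (insert r (P ∪ C)) (Function.update id r z) ρ₁ X * mn (P ∩ C) ρ₂ X))

def StLift : Prop := ∀ (n : ℕ) (w v : Equiv.Perm (Fin n)) (r s i : Fin n), TrD w v r s →
  i ∈ Trs w r s → ∀ ρ : Fin n → Fin n → Fin n,
  ∃ f ∈ VS (UT n) (Ic w),
    tau i r (mm w r (w i).val) f = (fun X => FF (Ic (v * Equiv.swap i r)) ρ X.1) ∧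
    ∀ i' ∈ Trs w r s, i' < i → tau i' r (mm w r (w i').val) f = 0

def StA2 : Prop := ∀ (n : ℕ) (w v : Equiv.Perm (Fin n)) (r s : Fin n), TrD w v r s →
  dV (UT n) (Ic v) + ∑ i ∈ Trs w r s, dV (UT n) (Ic (v * Equiv.swap i r)) ≤ dV (UT n) (Ic w)

def StUle : Prop := ∀ (n : ℕ) (w : Equiv.Perm (Fin n)), Ups w ≤ ((dV (UT n) (Ic w) : ℕ) : ℚ)

/-! ### B: comparison of `dV` and `dL` -/

def StMn : Prop := ∀ (ι : Type) [Fintype ι] [DecidableEq ι] (I : Finset ι) (ρ : ι → ι),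
  ∃ (ε : ℚ) (C : Finset ι) (ρ' : ι → ι), C ⊆ I ∧ (∀ a ∈ C, ρ' a ∉ I) ∧
    ∀ B : Matrix ι ι ℚ,
      (Matrix.of (fun (a b : I) => if ρ a ∈ I then (if ρ a = b then (1 : ℚ) else 0)
        else B (ρ a) b)).det = ε * mn C ρ' B

def StB3a : Prop := ∀ (ι : Type) [Fintype ι] [DecidableEq ι] (𝓑 : Set (Matrix ι ι ℚ)),
  (∀ B ∈ 𝓑, ∀ B' ∈ 𝓑, B * B' = 0) → ∀ (I : Finset ι) (ρ : ι → ι),
  (fun B : 𝓑 => mn I ρ (1 + B.1)) ∈ Submodule.span ℚ {f : 𝓑 → ℚ |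
    ∃ (C : Finset ι) (ρ' : ι → ι), C ⊆ I ∧ (∀ a ∈ C, ρ' a ∉ I) ∧ f = fun B : 𝓑 => mn C ρ' B.1}

def StB3 : Prop := ∀ (ι κ : Type) [Fintype ι] [DecidableEq ι] [Fintype κ]
  (𝓑 : Set (Matrix ι ι ℚ)), (∀ B ∈ 𝓑, ∀ B' ∈ 𝓑, B * B' = 0) → ∀ I : κ → Finset ι,
  dV {X | ∃ B ∈ 𝓑, X = 1 + B} I ≤ dL 𝓑 I

/-- left multiplication. -/
def StLM : Prop := ∀ (ι κ : Type) [Fintype ι] [DecidableEq ι] [Fintype κ]
  (𝒳 : Set (Matrix ι ι ℚ)) (g : Matrix ι ι ℚ) (I : κ → Finset ι),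
  dV {X | ∃ x ∈ 𝒳, X = g * x} I ≤ dV 𝒳 I

def StB1 : Prop := ∀ (ι κ : Type) [Fintype ι] [DecidableEq ι] [Fintype κ]
  (𝒳 𝒵 : Set (Matrix ι ι ℚ)) (I : κ → Finset ι) (N : ℕ),
  (∀ z ∈ 𝒵, dV {X | ∃ x ∈ 𝒳, X = x * z} I ≤ N) →
  dV {X | ∃ x ∈ 𝒳, ∃ z ∈ 𝒵, X = x * z} I ≤ N * dV 𝒵 I

def StB3g : Prop := ∀ (n : ℕ) (κ : Type) [Fintype κ] (I : κ → Finset (Fin n))
  (S : Finset (Fin n)) (g : Matrix (Fin n) (Fin n) ℚ), g ∈ UT n →
  dV {X | ∃ x ∈ {Y | ∃ B ∈ SB n S, Y = 1 + B}, X = x * g} I ≤ dL (NU n) I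

/-- the product set of `1 + SB`, `1 + SB'`, `1 + SB`, `1 + SB'`. -/
def PP (n : ℕ) (S S' : Finset (Fin n)) : Set (Matrix (Fin n) (Fin n) ℚ) :=
  {X | ∃ B₁ ∈ SB n S, ∃ B₂ ∈ SB n S', ∃ B₃ ∈ SB n S, ∃ B₄ ∈ SB n S',
    X = (1 + B₁) * ((1 + B₂) * ((1 + B₃) * (1 + B₄)))}

def StConj : Prop := ∀ (m : ℕ) (ν ν' : Matrix (Fin m) (Fin m) ℚ), ν ∈ NU m → ν' ∈ NU m →
  (∀ a b : Fin m, b.val = a.val + 1 → ν a b ≠ 0 ∧ ν' a b ≠ 0) →
  ∃ C : Matrix (Fin m) (Fin m) ℚ, (∀ a b, b < a → C a b = 0) ∧ (∀ a, C a a ≠ 0) ∧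
    C * ν' = ν * C

def StFac : Prop := ∀ (m : ℕ) (P Q R T : Matrix (Fin m) (Fin m) ℚ), P ∈ UT m → T ∈ UT m →
  (∀ a b, b < a → Q a b = 0) → R ∈ NU m →
  (∀ a b : Fin m, b.val = a.val + 1 → T a b ≠ 0 ∧ P a b - Q a a * R a b ≠ 0) →
  ∃ Q₁ Q₂ R₁ R₂ : Matrix (Fin m) (Fin m) ℚ, (∀ a b, b < a → Q₁ a b = 0) ∧
    (∀ a b, b < a → Q₂ a b = 0) ∧ R₁ ∈ NU m ∧ R₂ ∈ NU m ∧
    Matrix.fromBlocks P Q R T = Matrix.fromBlocks 1 Q₁ 0 1 * (Matrix.fromBlocks 1 0 R₁ 1 *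
      (Matrix.fromBlocks 1 Q₂ 0 1 * Matrix.fromBlocks 1 0 R₂ 1))

def StEven : Prop := ∀ (m : ℕ) (X : Matrix (Fin (2 * m)) (Fin (2 * m)) ℚ), X ∈ UT (2 * m) →
  (∀ a b c : Fin (2 * m), b.val = a.val + 1 → c.val = a.val + 2 →
    (a.val % 2 = 1 → X a c ≠ 0) ∧ (a.val % 2 = 0 → X a c - X a b * X b c ≠ 0)) →
  X ∈ PP (2 * m) (ev (2 * m)) (ev (2 * m))ᶜ

def StGen : Prop := ∀ (n : ℕ) (X : Matrix (Fin n) (Fin n) ℚ), X ∈ UT n →
  ∃ K : Matrix (Fin n) (Fin n) ℚ, K ∈ NU n ∧ {ε : ℚ | X + ε • K ∉ PP n (ev n) (ev n)ᶜ}.Finite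

def StB2 : Prop := ∀ (n : ℕ) (κ : Type) [Fintype κ] (I : κ → Finset (Fin n)),
  dV (UT n) I ≤ dV (PP n (ev n) (ev n)ᶜ) I ∧ dV (UT n) I ≤ dV (PP n (ev n)ᶜ (ev n)) I

def StBD : Prop := ∀ (n : ℕ) (κ : Type) [Fintype κ] (I : κ → Finset (Fin n))
  (S : Finset (Fin n)), dL (SB n S) I * dL (SB n Sᶜ) I ≤ dL (NU n) I

def StBfin : Prop := ∀ (n : ℕ) (κ : Type) [Fintype κ] (I : κ → Finset (Fin n)),
  (dV (UT n) I) ^ 2 ≤ (dL (NU n) I) ^ 7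

/-! ### C: the blow-up -/

/-- the column set `I × [k]`. -/
def bl {n : ℕ} (k : ℕ) (I : Finset (Fin n)) : Finset (Fin n × Fin k) := I ×ˢ Finset.univ

/-- The matrices `1 + Y`, `Y` with blocks in `NU n`. -/
def XK (n k : ℕ) : Set (Matrix (Fin n × Fin k) (Fin n × Fin k) ℚ) :=
  {X | ∀ p q, ¬ p.1 < q.1 → X p q = if p = q then 1 else 0}

/-- `Y` with blocks in `NU n`, only blocks `(α, β)` with `β - α = σ γ` for some `γ`. -/
def YK (n k : ℕ) {K : Type} (σ : K → ℤ) : Set (Matrix (Fin n × Fin k) (Fin n × Fin k) ℚ) :=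
  {Y | ∀ p q, Y p q ≠ 0 → p.1 < q.1 ∧ ∃ γ, (q.2.val : ℤ) - (p.2.val : ℤ) = σ γ}

/-- The block `(α, β)` of `Y`. -/
def blk {n k : ℕ} (Y : Matrix (Fin n × Fin k) (Fin n × Fin k) ℚ) (α β : Fin k) :
    Matrix (Fin n) (Fin n) ℚ := Matrix.of (fun a b => Y (a, α) (b, β))

/-- scaling of the blocks. -/
noncomputable def scl {n k : ℕ} (N : ℕ) (t : ℚ) (Y : Matrix (Fin n × Fin k) (Fin n × Fin k) ℚ) :
    Matrix (Fin n × Fin k) (Fin n × Fin k) ℚ :=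
  Matrix.of (fun p q => t ^ (N + (((p.2.val : ℤ) - (q.2.val : ℤ)) ^ 2).toNat) * Y p q)

/-- the pairs `(γ, β)` with `0 ≤ β - σ γ < k`. -/
noncomputable def Gam (k : ℕ) {K : Type} [Fintype K] (σ : K → ℤ) : Finset (K × Fin k) :=
  Finset.univ.filter (fun p => 0 ≤ (p.2.val : ℤ) - σ p.1 ∧ (p.2.val : ℤ) - σ p.1 < k)

/-- row choice: `(b, β) ↦ (ρ β b, β - c)` if `b ∈ C β`, else `(b, β)`. -/
noncomputable def rch {n k : ℕ} (c : ℤ) (C : Fin k → Finset (Fin n))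
    (ρ : Fin k → Fin n → Fin n) (p : Fin n × Fin k) : Fin n × Fin k :=
  if h : p.1 ∈ C p.2 ∧ 0 ≤ (p.2.val : ℤ) - c ∧ (p.2.val : ℤ) - c < k then
    (ρ p.2 p.1, ⟨((p.2.val : ℤ) - c).toNat, by omega⟩) else p

/-- degeneration of one minor; the exponent `N` is large. -/
def StSc1 : Prop := ∀ (n k : ℕ) (I : Finset (Fin n)) (c : ℤ) (C : Fin k → Finset (Fin n))
  (ρ : Fin k → Fin n → Fin n), (∀ β, C β ⊆ I ∧ ∀ a ∈ C β, ρ β a ∉ I) →
  (∀ β, (C β).Nonempty → 0 ≤ (β.val : ℤ) - c ∧ (β.val : ℤ) - c < k) → |c| ≤ k →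
  ∃ E : ℤ, ∀ Y : Matrix (Fin n × Fin k) (Fin n × Fin k) ℚ, (∀ p q, Y p q ≠ 0 → p.1 < q.1) →
    ∃ Q : Polynomial ℚ, (∀ t : ℚ, t ≠ 0 →
        t ^ E * mn (bl k I) (rch c C ρ) (1 + scl (8 * k ^ 2 + 8) t Y) = Q.eval t) ∧
      Q.eval 0 = ∏ β : Fin k, if h : 0 ≤ (β.val : ℤ) - c ∧ (β.val : ℤ) - c < k then
        mn (C β) (ρ β) (blk Y ⟨((β.val : ℤ) - c).toNat, by omega⟩ β) else 1

/-- products of independent functions of independent variables are independent. -/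
def StTens : Prop := ∀ (G : Type) [Fintype G] (Z : Type) (N : ℕ) (f : Fin N → Z → ℚ),
  LinearIndependent ℚ f →
  LinearIndependent ℚ (fun (s : G → Fin N) => fun z : G → Z => ∏ g, f (s g) (z g))

/-- semicontinuity. -/
def StSemi : Prop := ∀ (S Z : Type) [Fintype S] (P : S → Z → Polynomial ℚ),
  LinearIndependent ℚ (fun s => fun z : Z => (P s z).eval 0) →
  ∃ t : ℚ, t ≠ 0 ∧ LinearIndependent ℚ (fun s => fun z : Z => (P s z).eval t)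

def StC0 : Prop := ∀ (n k : ℕ) (κ : Type) [Fintype κ] (I : κ → Finset (Fin n))
  (K : Type) [Fintype K] (σ : K → ℤ), Function.Injective σ → (∀ γ, |σ γ| ≤ k) →
  ∃ R : (Gam k σ → Fin (dL (NU n) I)) → K → κ → (Fin n × Fin k) → (Fin n × Fin k),
    LinearIndependent ℚ (fun s => fun Y : YK n k σ =>
      ∏ γ, ∏ j, mn (bl k (I j)) (R s γ j) (1 + Y.1))

def StC1 : Prop := ∀ (n k : ℕ) (κ : Type) [Fintype κ] (I : κ → Finset (Fin n)),
  ∃ m : ℕ, 3 * k ^ 2 ≤ 4 * m ∧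
    (dL (NU n) I) ^ m ≤ dV (XK n k) (fun p : κ × Fin k => bl k (I p.1))

/-- mixing. -/
def StMix : Prop := ∀ (n k : ℕ) (κ : Type) [Fintype κ] (I : κ → Finset (Fin n))
  (K : Type) [Fintype K] (σ : K → ℤ), (∀ γ, 0 < σ γ) → ∀ (S : Type) [Fintype S]
  (R : S → K → κ → (Fin n × Fin k) → (Fin n × Fin k)),
  LinearIndependent ℚ (fun s => fun Y : YK n k σ =>
      ∏ γ, ∏ j, mn (bl k (I j)) (R s γ j) (1 + Y.1)) →
  (dV (UT n) I) ^ k * Fintype.card S ≤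
    dV (XK n k) (fun p : κ × Option K => bl k (I p.1))

def StC2 : Prop := ∀ (n k : ℕ) (κ : Type) [Fintype κ] (I : κ → Finset (Fin n)), 1 ≤ k →
  (dV (UT n) I) ^ k * (dL (NU n) I) ^ (k * (k - 1) / 2) ≤
    dV (XK n k) (fun p : κ × Fin k => bl k (I p.1))

/-- transport to `Fin (n * k)`. -/
def StTsp : Prop := ∀ (n k : ℕ) (w : Equiv.Perm (Fin n)),
  dV (XK n k) (fun p : Fin n × Fin k => bl k (Ic w p.1)) ≤ dV (UT (n * k)) (Ic (Bl k w))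

/-- The theorem. -/
def StFin : Prop := ∀ (n k : ℕ) (w : Equiv.Perm (Fin n)), 1 ≤ k →
  Ups w ^ (3 * k ^ 2) ≤ Ups (Bl k w) ^ 14 ∧ Ups w ^ (k ^ 2 + 6 * k) ≤ Ups (Bl k w) ^ 7

end Pool.Agent.Work.MP_ca14f8_co.QE
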