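import Pool.Agent.Work.MP_ca14f8_co.QE.Stmts

/-!
Item B2: the product set of four square zero factors is dense.
-/

set_option autoImplicit false
open Classical Polynomial

namespace Pool.Agent.Work.MP_ca14f8_co.QE

namespace XB2

/-- the span of the functions `FF I ρ` on all matrices. -/
noncomputable def G {n : ℕ} {κ : Type} [Fintype κ] (I : κ → Finset (Fin n)) :
    Submodule ℚ (Matrix (Fin n) (Fin n) ℚ → ℚ) :=
  Submodule.span ℚ (Set.range (fun (ρ : κ → Fin n → Fin n) => fun X => FF I ρ X))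

/-- restriction. -/
def res {n : ℕ} (s : Set (Matrix (Fin n) (Fin n) ℚ)) :
    (Matrix (Fin n) (Fin n) ℚ → ℚ) →ₗ[ℚ] (s → ℚ) where
  toFun := fun f x => f x.1
  map_add' := fun _ _ => rfl
  map_smul' := fun _ _ => rfl

theorem VS_eq {n : ℕ} {κ : Type} [Fintype κ] (I : κ → Finset (Fin n))
    (s : Set (Matrix (Fin n) (Fin n) ℚ)) : VS s I = (G I).map (res s) := by
  unfold VS G
  rw [Submodule.map_span]
  congr 1
  rw [← Set.range_comp]
  rfl

theorem dV_le {n : ℕ} {κ : Type} [Fintype κ] (I : κ → Finset (Fin n))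
    (s t : Set (Matrix (Fin n) (Fin n) ℚ))
    (h : ∀ F ∈ G I, (∀ Y ∈ t, F Y = 0) → ∀ X ∈ s, F X = 0) : dV s I ≤ dV t I := by
  have hfin : FiniteDimensional ℚ (G I) := by
    unfold G
    exact FiniteDimensional.span_of_finite ℚ (Set.finite_range _)
  unfold dV
  rw [VS_eq, VS_eq]
  have e : ∀ u : Set (Matrix (Fin n) (Fin n) ℚ),
      Module.finrank ℚ ((G I).map (res u)) + Module.finrank ℚ
        (LinearMap.ker ((res u).domRestrict (G I))) = Module.finrank ℚ (G I) := by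
    intro u
    rw [← LinearMap.range_domRestrict]
    exact LinearMap.finrank_range_add_finrank_ker _
  have hk : Module.finrank ℚ (LinearMap.ker ((res t).domRestrict (G I))) ≤
      Module.finrank ℚ (LinearMap.ker ((res s).domRestrict (G I))) := by
    apply Submodule.finrank_mono
    intro F hF
    rw [LinearMap.mem_ker] at hF ⊢
    funext X
    exact h F.1 F.2 (fun Y hY => congrFun hF ⟨Y, hY⟩) X.1 X.2
  have e1 := e s
  have e2 := e t
  omega

/-- evaluation of a polynomial matrix. -/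
noncomputable def ev1 {n : ℕ} (P : Matrix (Fin n) (Fin n) ℚ[X]) (ε : ℚ) :
    Matrix (Fin n) (Fin n) ℚ := P.map (Polynomial.eval ε)

theorem poly {n : ℕ} {κ : Type} [Fintype κ] (I : κ → Finset (Fin n))
    (P : Matrix (Fin n) (Fin n) ℚ[X]) (F : Matrix (Fin n) (Fin n) ℚ → ℚ) (hF : F ∈ G I) :
    ∃ p : ℚ[X], ∀ ε : ℚ, p.eval ε = F (ev1 P ε) := by
  unfold G at hF
  induction hF using Submodule.span_induction with
  | mem x hx =>
    obtain ⟨ρ, rfl⟩ := hx
    refine ⟨∏ j, (Matrix.of (fun (a b : I j) => P (ρ j a) b)).det, fun ε => ?_⟩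
    rw [Polynomial.eval_prod]
    refine Finset.prod_congr rfl fun j _ => ?_
    have := RingHom.map_det (Polynomial.evalRingHom ε)
      (Matrix.of (fun (a b : I j) => P (ρ j a) b))
    rw [Polynomial.coe_evalRingHom] at this
    rw [this]
    rfl
  | zero => exact ⟨0, fun ε => by simp⟩
  | add x y _ _ hx hy =>
    obtain ⟨p, hp⟩ := hx
    obtain ⟨q, hq⟩ := hy
    exact ⟨p + q, fun ε => by rw [Polynomial.eval_add, hp, hq]; rfl⟩
  | smul a x _ hx =>
    obtain ⟨p, hp⟩ := hx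
    exact ⟨Polynomial.C a * p, fun ε => by
      rw [Polynomial.eval_mul, Polynomial.eval_C, hp]; rfl⟩

theorem zero_of_finite (p : ℚ[X]) (S : Set ℚ) (hS : S.Finite) (h : ∀ ε, ε ∉ S → p.eval ε = 0) :
    p = 0 := by
  apply Polynomial.eq_zero_of_infinite_isRoot
  exact (hS.infinite_compl).mono (fun ε hε => h ε hε)

theorem inv_PP {n : ℕ} (S S' : Finset (Fin n))
    (X : Matrix (Fin n) (Fin n) ℚ) (hX : X ∈ PP n S S')
    (h1 : ∀ B ∈ SB n S, B * B = 0) (h2 : ∀ B ∈ SB n S', B * B = 0) :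
    ∃ X' ∈ PP n S' S, X * X' = 1 := by
  obtain ⟨B₁, hB₁, B₂, hB₂, B₃, hB₃, B₄, hB₄, rfl⟩ := hX
  have neg : ∀ (T : Finset (Fin n)) (B : Matrix (Fin n) (Fin n) ℚ), B ∈ SB n T → -B ∈ SB n T := by
    intro T B hB a b hab
    exact hB a b (by simpa using hab)
  have c : ∀ B : Matrix (Fin n) (Fin n) ℚ, B * B = 0 → (1 + B) * (1 + (-B)) = 1 := by
    intro B hB
    have : (1 + B) * (1 + (-B)) = 1 - B * B := by noncomm_ring
    rw [this, hB, sub_zero]
  refine ⟨(1 + -B₄) * ((1 + -B₃) * ((1 + -B₂) * (1 + -B₁))),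
    ⟨-B₄, neg _ _ hB₄, -B₃, neg _ _ hB₃, -B₂, neg _ _ hB₂, -B₁, neg _ _ hB₁, rfl⟩, ?_⟩
  calc ((1 + B₁) * ((1 + B₂) * ((1 + B₃) * (1 + B₄)))) *
        ((1 + -B₄) * ((1 + -B₃) * ((1 + -B₂) * (1 + -B₁))))
      = (1 + B₁) * ((1 + B₂) * ((1 + B₃) * ((1 + B₄) * (1 + -B₄)) * (1 + -B₃)) * (1 + -B₂)) *
        (1 + -B₁) := by simp only [Matrix.mul_assoc]
    _ = 1 := by
      rw [c _ (h2 _ hB₄), Matrix.mul_one, c _ (h1 _ hB₃), Matrix.mul_one, c _ (h2 _ hB₂),
        Matrix.mul_one, c _ (h1 _ hB₁)]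

theorem sq_zero {n : ℕ} (S : Finset (Fin n)) (B : Matrix (Fin n) (Fin n) ℚ) (hB : B ∈ SB n S) :
    B * B = 0 := by
  ext a b
  rw [Matrix.mul_apply, Matrix.zero_apply]
  refine Finset.sum_eq_zero fun c _ => ?_
  by_contra h
  have h1 := left_ne_zero_of_mul h
  have h2 := right_ne_zero_of_mul h
  exact (hB a c h1).2.2 (hB c b h2).2.1

theorem det_UT {n : ℕ} {X : Matrix (Fin n) (Fin n) ℚ} (hX : X ∈ UT n) : X.det = 1 := by
  have htri : Matrix.BlockTriangular X (id : Fin n → Fin n) := fun i j hij => hX.1 i j hij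
  rw [Matrix.det_of_isUpperTriangular htri]
  exact Finset.prod_eq_one (fun a _ => hX.2 a)

theorem inv_UT {n : ℕ} {X : Matrix (Fin n) (Fin n) ℚ} (hX : X ∈ UT n) : X⁻¹ ∈ UT n := by
  have hunit : IsUnit X.det := by rw [det_UT hX]; exact isUnit_one
  have htri : Matrix.BlockTriangular X (id : Fin n → Fin n) := fun i j hij => hX.1 i j hij
  have : Invertible X := Matrix.invertibleOfIsUnitDet X hunit
  have htri' : Matrix.BlockTriangular X⁻¹ (id : Fin n → Fin n) :=
    Matrix.blockTriangular_inv_of_blockTriangular htri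
  refine ⟨fun a b h => htri' h, fun a => ?_⟩
  have h1 : X * X⁻¹ = 1 := Matrix.mul_nonsing_inv X hunit
  have h2 := congrFun (congrFun h1 a) a
  rw [Matrix.mul_apply, Matrix.one_apply_eq, Finset.sum_eq_single a] at h2
  · rwa [hX.2 a, one_mul] at h2
  · intro b _ hb
    rcases lt_or_gt_of_ne hb with h | h
    · rw [hX.1 a b h, zero_mul]
    · rw [htri' h, mul_zero]
  · intro h; exact absurd (Finset.mem_univ a) h

/-- the pencil `X + ε K`. -/
noncomputable def pen {n : ℕ} (X K : Matrix (Fin n) (Fin n) ℚ) : Matrix (Fin n) (Fin n) ℚ[X] :=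
  Matrix.of (fun a b => Polynomial.C (X a b) + Polynomial.X * Polynomial.C (K a b))

theorem ev_pen {n : ℕ} (X K : Matrix (Fin n) (Fin n) ℚ) (ε : ℚ) :
    ev1 (pen X K) ε = X + ε • K := by
  ext a b
  simp [ev1, pen]
  ring

theorem pen_UT {n : ℕ} {X K : Matrix (Fin n) (Fin n) ℚ} (hX : X ∈ UT n) (hK : K ∈ NU n) (ε : ℚ) :
    X + ε • K ∈ UT n := by
  refine ⟨fun a b h => ?_, fun a => ?_⟩
  · rw [Matrix.add_apply, Matrix.smul_apply, hX.1 a b h, hK a b h.le, smul_zero, add_zero]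
  · rw [Matrix.add_apply, Matrix.smul_apply, hX.2 a, hK a a le_rfl, smul_zero, add_zero]

theorem ev_adj {n : ℕ} (P : Matrix (Fin n) (Fin n) ℚ[X]) (ε : ℚ) :
    ev1 P.adjugate ε = (ev1 P ε).adjugate := by
  have := RingHom.map_adjugate (Polynomial.evalRingHom ε) P
  exact this

theorem adj_eq {n : ℕ} {Y Y' : Matrix (Fin n) (Fin n) ℚ} (hY : Y ∈ UT n) (h : Y * Y' = 1) :
    Y.adjugate = Y' := by
  calc Y.adjugate = Y.adjugate * (Y * Y') := by rw [h, Matrix.mul_one]
    _ = (Y.adjugate * Y) * Y' := by rw [Matrix.mul_assoc]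
    _ = Y' := by rw [Matrix.adjugate_mul, det_UT hY, one_smul, Matrix.one_mul]

end XB2

open XB2 in
theorem I_B2 (h : StGen) : StB2 := by
  intro n κ _ I
  constructor
  · apply dV_le
    intro F hF h0 X hX
    obtain ⟨K, hK, hfin⟩ := h n X hX
    obtain ⟨p, hp⟩ := poly I (pen X K) F hF
    have hz : p = 0 := by
      apply zero_of_finite p _ hfin
      intro ε hε
      rw [hp, ev_pen]
      exact h0 _ (by simpa using hε)
    have := hp 0
    rw [hz, ev_pen, Polynomial.eval_zero, zero_smul, add_zero] at this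
    exact this.symm
  · apply dV_le
    intro F hF h0 X hX
    obtain ⟨K, hK, hfin⟩ := h n X⁻¹ (inv_UT hX)
    obtain ⟨p, hp⟩ := poly I (pen X⁻¹ K).adjugate F hF
    have hz : p = 0 := by
      apply zero_of_finite p _ hfin
      intro ε hε
      rw [hp, ev_adj, ev_pen]
      have hmem : X⁻¹ + ε • K ∈ PP n (ev n) (ev n)ᶜ := by simpa using hε
      obtain ⟨Y', hY', e⟩ := inv_PP (ev n) (ev n)ᶜ _
        hmem (fun B hB => sq_zero _ B hB) (fun B hB => sq_zero _ B hB)
      rw [adj_eq (pen_UT (inv_UT hX) hK ε) e]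
      exact h0 _ hY'
    have := hp 0
    rw [hz, ev_adj, ev_pen, Polynomial.eval_zero, zero_smul, add_zero] at this
    have hunit : IsUnit X.det := by rw [det_UT hX]; exact isUnit_one
    rw [adj_eq (inv_UT hX) (Matrix.nonsing_inv_mul X hunit)] at this
    exact this.symm

end Pool.Agent.Work.MP_ca14f8_co.QE
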