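import Pool.Agent.Work.MP_ca14f8_co.QE.Stmts

/-!
Block QE of MP_ca14f8_co: the product bound `dL (SB S) * dL (SB Sᶜ) ≤ dL (NU n)`.
-/

set_option autoImplicit false
open Classical

namespace Pool.Agent.Work.MP_ca14f8_co.QE

namespace XBD

theorem mn_union {n : ℕ} (S C C' : Finset (Fin n)) (ρ ρ' : Fin n → Fin n)
    (h1 : ∀ a ∈ C, a ∉ S ∧ ρ a ∈ S) (h2 : ∀ a ∈ C', a ∈ S ∧ ρ' a ∉ S)
    (B₁ B₂ : Matrix (Fin n) (Fin n) ℚ) (hB1 : B₁ ∈ SB n S) (hB2 : B₂ ∈ SB n Sᶜ) :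
    mn (C ∪ C') (fun a => if a ∈ C then ρ a else ρ' a) (B₁ + B₂) = mn C ρ B₁ * mn C' ρ' B₂ := by
  have hd : Disjoint C C' := by
    rw [Finset.disjoint_left]
    intro a ha ha'
    exact (h1 a ha).1 (h2 a ha').1
  have z1 : ∀ a b, ¬ (a ∈ S ∧ b ∉ S) → B₁ a b = 0 := by
    intro a b hab
    by_contra h
    exact hab (hB1 a b h).2
  have z2 : ∀ a b, ¬ (a ∉ S ∧ b ∈ S) → B₂ a b = 0 := by
    intro a b hab
    by_contra h
    have := (hB2 a b h).2
    simp only [Finset.mem_compl, not_not] at this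
    exact hab this
  unfold mn
  rw [← Matrix.det_submatrix_equiv_self (Equiv.Finset.union C C' hd),
    ← Matrix.det_fromBlocks_zero₂₁ (Matrix.of (fun (a b : C) => B₁ (ρ a) b)) 0
      (Matrix.of (fun (a b : C') => B₂ (ρ' a) b))]
  congr 1
  ext x y
  rcases x with ⟨a, ha⟩ | ⟨a, ha⟩ <;> rcases y with ⟨b, hb⟩ | ⟨b, hb⟩
  · have e : B₂ (ρ a) b = 0 := z2 _ _ (fun h => h.1 (h1 a ha).2)
    simp [Matrix.submatrix, ha, e]
  · have e : B₂ (ρ a) b = 0 := z2 _ _ (fun h => h.1 (h1 a ha).2)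
    have e' : B₁ (ρ a) b = 0 := z1 _ _ (fun h => h.2 (h2 b hb).1)
    simp [Matrix.submatrix, ha, e, e']
  · have na : a ∉ C := fun h => (h1 a h).1 (h2 a ha).1
    have e : B₁ (ρ' a) b = 0 := z1 _ _ (fun h => (h2 a ha).2 h.1)
    have e' : B₂ (ρ' a) b = 0 := z2 _ _ (fun h => (h1 b hb).1 h.2)
    simp [Matrix.submatrix, na, e, e']
  · have na : a ∉ C := fun h => (h1 a h).1 (h2 a ha).1
    have e : B₁ (ρ' a) b = 0 := z1 _ _ (fun h => (h2 a ha).2 h.1)
    simp [Matrix.submatrix, na, e]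

theorem mn_zero_col {n : ℕ} (C : Finset (Fin n)) (ρ : Fin n → Fin n)
    (B : Matrix (Fin n) (Fin n) ℚ) (b : Fin n) (hb : b ∈ C) (h : ∀ a, B a b = 0) :
    mn C ρ B = 0 := by
  unfold mn
  exact Matrix.det_eq_zero_of_column_eq_zero ⟨b, hb⟩ (fun i => by simp [h])

theorem mn_zero_row {n : ℕ} (C : Finset (Fin n)) (ρ : Fin n → Fin n)
    (B : Matrix (Fin n) (Fin n) ℚ) (a : Fin n) (ha : a ∈ C) (h : ∀ b, B (ρ a) b = 0) :
    mn C ρ B = 0 := by
  unfold mn
  exact Matrix.det_eq_zero_of_row_eq_zero ⟨a, ha⟩ (fun i => by simp [h])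

theorem nz {n : ℕ} {κ : Type} [Fintype κ] (S : Finset (Fin n)) (C : κ → Finset (Fin n))
    (ρ : κ → Fin n → Fin n) (h : (fun B : SB n S => FF C ρ B.1) ≠ 0) :
    ∀ j, ∀ a ∈ C j, a ∉ S ∧ ρ j a ∈ S := by
  intro j a ha
  by_contra hc
  apply h
  funext B
  show FF C ρ B.1 = 0
  unfold FF
  apply Finset.prod_eq_zero (Finset.mem_univ j)
  by_cases h1 : a ∈ S
  · apply mn_zero_col _ _ _ a ha
    intro c
    by_contra h2
    exact (B.2 c a h2).2.2 h1
  · apply mn_zero_row _ _ _ a ha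
    intro c
    by_contra h2
    exact hc ⟨h1, (B.2 _ c h2).2.1⟩

theorem FF_union {n : ℕ} {κ : Type} [Fintype κ] (S : Finset (Fin n)) (C C' : κ → Finset (Fin n))
    (ρ ρ' : κ → Fin n → Fin n) (h : (fun B : SB n S => FF C ρ B.1) ≠ 0)
    (h' : (fun B : SB n Sᶜ => FF C' ρ' B.1) ≠ 0) (B₁ : SB n S) (B₂ : SB n Sᶜ) :
    FF (fun j => C j ∪ C' j) (fun j a => if a ∈ C j then ρ j a else ρ' j a) (B₁.1 + B₂.1) =
      FF C ρ B₁.1 * FF C' ρ' B₂.1 := by
  unfold FF
  rw [← Finset.prod_mul_distrib]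
  apply Finset.prod_congr rfl
  intro j _
  apply mn_union S
  · exact nz S C ρ h j
  · intro a ha
    have := nz Sᶜ C' ρ' h' j a ha
    simpa using this
  · exact B₁.2
  · exact B₂.2

theorem add_mem {n : ℕ} (S : Finset (Fin n)) (B₁ : SB n S) (B₂ : SB n Sᶜ) :
    B₁.1 + B₂.1 ∈ NU n := by
  intro a b hab
  have e1 : B₁.1 a b = 0 := by
    by_contra h
    exact absurd (B₁.2 a b h).1 (not_lt.mpr hab)
  have e2 : B₂.1 a b = 0 := by
    by_contra h
    exact absurd (B₂.2 a b h).1 (not_lt.mpr hab)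
  simp [e1, e2]

/-- restriction to `B₁ + B₂`. -/
def res (n : ℕ) (S : Finset (Fin n)) : (NU n → ℚ) →ₗ[ℚ] (SB n S × SB n Sᶜ → ℚ) where
  toFun := fun f p => f ⟨p.1.1 + p.2.1, add_mem S p.1 p.2⟩
  map_add' := by intros; rfl
  map_smul' := by intros; rfl

theorem prod_indep {Z W α β : Type} [Fintype α] [Fintype β] (f : α → Z → ℚ) (g : β → W → ℚ)
    (hf : LinearIndependent ℚ f) (hg : LinearIndependent ℚ g) :
    LinearIndependent ℚ (fun (p : α × β) => fun (q : Z × W) => f p.1 q.1 * g p.2 q.2) := by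
  rw [Fintype.linearIndependent_iff] at hf hg ⊢
  intro c hc p
  have key : ∀ z : Z, ∀ b : β, ∑ a, c (a, b) * f a z = 0 := by
    intro z
    apply hg
    funext w
    have := congrFun hc (z, w)
    simp only [Finset.sum_apply, Pi.smul_apply, smul_eq_mul, Pi.zero_apply] at this ⊢
    rw [Fintype.sum_prod_type, Finset.sum_comm] at this
    rw [← this]
    apply Finset.sum_congr rfl
    intro b _
    rw [Finset.sum_mul]
    apply Finset.sum_congr rfl
    intro a _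
    ring
  have := hf (fun a => c (a, p.2)) (by
    funext z
    simpa [Finset.sum_apply] using key z p.2) p.1
  simpa using this

theorem fin_gen {n : ℕ} {κ : Type} [Fintype κ] (𝓑 : Set (Matrix (Fin n) (Fin n) ℚ))
    (I : κ → Finset (Fin n)) :
    {f : 𝓑 → ℚ | ∃ (C : κ → Finset (Fin n)) (ρ : κ → Fin n → Fin n), Adm I C ρ ∧
      f = fun B : 𝓑 => FF C ρ B.1}.Finite := by
  apply Set.Finite.subset (Set.finite_range
    (fun p : (κ → Finset (Fin n)) × (κ → Fin n → Fin n) => fun B : 𝓑 => FF p.1 p.2 B.1))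
  rintro f ⟨C, ρ, _, rfl⟩
  exact ⟨(C, ρ), rfl⟩

theorem base {n : ℕ} {κ : Type} [Fintype κ] (𝓑 : Set (Matrix (Fin n) (Fin n) ℚ))
    (I : κ → Finset (Fin n)) : ∃ f : Fin (dL 𝓑 I) → 𝓑 → ℚ, LinearIndependent ℚ f ∧
      ∀ i, ∃ (C : κ → Finset (Fin n)) (ρ : κ → Fin n → Fin n), Adm I C ρ ∧
        f i = fun B : 𝓑 => FF C ρ B.1 := by
  obtain ⟨b, hb, hs, hl⟩ := exists_linearIndependent ℚ
    {f : 𝓑 → ℚ | ∃ (C : κ → Finset (Fin n)) (ρ : κ → Fin n → Fin n), Adm I C ρ ∧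
      f = fun B : 𝓑 => FF C ρ B.1}
  have hbf : b.Finite := (fin_gen 𝓑 I).subset hb
  haveI : Fintype b := hbf.fintype
  have hcard : Fintype.card b = dL 𝓑 I := by
    unfold dL LS
    rw [← hs]
    have := finrank_span_eq_card hl
    rw [Subtype.range_coe_subtype] at this
    simpa using this.symm
  have e : Fin (dL 𝓑 I) ≃ b := (finCongr hcard.symm).trans (Fintype.equivFin b).symm
  exact ⟨fun i => (e i : 𝓑 → ℚ), hl.comp e e.injective, fun i => hb (e i).2⟩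

end XBD

open XBD in
theorem I_BD : StBD := by
  intro n κ _ I S
  obtain ⟨f, hf, hfC⟩ := base (SB n S) I
  obtain ⟨g, hg, hgC⟩ := base (SB n Sᶜ) I
  have hp := prod_indep f g hf hg
  haveI hfd : FiniteDimensional ℚ (LS (NU n) I) := by
    unfold LS
    exact FiniteDimensional.span_of_finite ℚ (fin_gen (NU n) I)
  have hmem : ∀ p : Fin (dL (SB n S) I) × Fin (dL (SB n Sᶜ) I),
      (fun (q : SB n S × SB n Sᶜ) => f p.1 q.1 * g p.2 q.2) ∈ (LS (NU n) I).map (res n S) := by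
    rintro ⟨i, j⟩
    obtain ⟨C, ρ, hC, hfi⟩ := hfC i
    obtain ⟨C', ρ', hC', hgj⟩ := hgC j
    have n1 : f i ≠ 0 := hf.ne_zero i
    have n2 : g j ≠ 0 := hg.ne_zero j
    rw [hfi] at n1
    rw [hgj] at n2
    refine ⟨fun B : NU n => FF (fun j => C j ∪ C' j)
      (fun j a => if a ∈ C j then ρ j a else ρ' j a) B.1, ?_, ?_⟩
    · apply Submodule.subset_span
      refine ⟨_, _, ?_, rfl⟩
      intro l
      refine ⟨Finset.union_subset (hC l).1 (hC' l).1, ?_⟩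
      intro a ha
      by_cases h : a ∈ C l
      · simp only [h, if_true]
        exact (hC l).2 a h
      · simp only [h, if_false]
        refine (hC' l).2 a ?_
        rcases Finset.mem_union.mp ha with h' | h'
        · exact absurd h' h
        · exact h'
    · funext q
      show FF _ _ (q.1.1 + q.2.1) = f i q.1 * g j q.2
      rw [FF_union S C C' ρ ρ' n1 n2 q.1 q.2, hfi, hgj]
  have hsp : Submodule.span ℚ (Set.range
      (fun (p : Fin (dL (SB n S) I) × Fin (dL (SB n Sᶜ) I)) =>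
        fun (q : SB n S × SB n Sᶜ) => f p.1 q.1 * g p.2 q.2)) ≤ (LS (NU n) I).map (res n S) := by
    rw [Submodule.span_le]
    rintro _ ⟨p, rfl⟩
    exact hmem p
  have h1 := finrank_span_eq_card hp
  rw [Fintype.card_prod, Fintype.card_fin, Fintype.card_fin] at h1
  rw [← h1]
  calc _ ≤ Module.finrank ℚ ((LS (NU n) I).map (res n S)) := Submodule.finrank_mono hsp
    _ ≤ Module.finrank ℚ (LS (NU n) I) := Submodule.finrank_map_le (res n S) (LS (NU n) I)
    _ = dL (NU n) I := rfl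

end Pool.Agent.Work.MP_ca14f8_co.QE
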