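import Pool.Agent.Work.MP_ca14f8_co.QE.Stmts

set_option autoImplicit false
open Classical

namespace Pool.Agent.Work.MP_ca14f8_co.QE

namespace XCovLen

noncomputable def f {n : ℕ} (a b : Fin n) (p : Fin n × Fin n) : Fin n × Fin n :=
  if Equiv.swap a b p.1 < Equiv.swap a b p.2 then (Equiv.swap a b p.1, Equiv.swap a b p.2) else p

theorem f_f {n : ℕ} {a b : Fin n} {p : Fin n × Fin n} (h : p.1 < p.2) : f a b (f a b p) = p := by
  unfold f
  by_cases h1 : Equiv.swap a b p.1 < Equiv.swap a b p.2
  · rw [if_pos h1]
    simp only [Equiv.swap_apply_self]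
    rw [if_pos h]
  · rw [if_neg h1, if_neg h1]

/-- the exceptional pairs -/
theorem exc {n : ℕ} {a b : Fin n} (hab : a < b) {x y : Fin n} (h : x < y)
    (h1 : ¬ Equiv.swap a b x < Equiv.swap a b y) :
    (x = a ∧ y = b) ∨ (x = a ∧ y < b ∧ y ≠ a) ∨ (a < x ∧ y = b ∧ x ≠ b) := by
  rw [Equiv.swap_apply_def, Equiv.swap_apply_def] at h1
  by_cases hxa : x = a
  · subst hxa
    by_cases hyb : y = b
    · exact Or.inl ⟨rfl, hyb⟩
    · rw [if_pos rfl, if_neg (ne_of_gt h), if_neg hyb] at h1
      exact Or.inr (Or.inl ⟨rfl, lt_of_le_of_ne (not_lt.mp h1) hyb, ne_of_gt h⟩)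
  · by_cases hxb : x = b
    · subst hxb
      rw [if_neg hxa, if_pos rfl, if_neg (ne_of_gt (hab.trans h)), if_neg (ne_of_gt h)] at h1
      exact absurd (hab.trans h) h1
    · rw [if_neg hxa, if_neg hxb] at h1
      by_cases hya : y = a
      · subst hya
        rw [if_pos rfl] at h1
        exact absurd (h.trans hab) h1
      · by_cases hyb : y = b
        · subst hyb
          rw [if_neg hya, if_pos rfl] at h1
          exact Or.inr (Or.inr ⟨lt_of_le_of_ne (not_lt.mp h1) (Ne.symm hxa), rfl, hxb⟩)
        · rw [if_neg hya, if_neg hyb] at h1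
          exact absurd h h1

theorem sw_ne {n : ℕ} {a b x : Fin n} (h1 : x ≠ a) (h2 : x ≠ b) : Equiv.swap a b x = x :=
  Equiv.swap_apply_of_ne_of_ne h1 h2

end XCovLen

open XCovLen in
theorem I_CovLen : StCovLen := by
  intro n v a b hc
  obtain ⟨hab, hv, hbet⟩ := hc
  have hmem : (a, b) ∈ inv (v * Equiv.swap a b) := by
    rw [mem_inv]
    refine ⟨hab, ?_⟩
    simp only [Equiv.Perm.mul_apply, Equiv.swap_apply_left, Equiv.swap_apply_right]
    exact hv
  rw [← Finset.card_erase_add_one hmem]
  congr 1
  symm
  refine Finset.card_bij' (fun p _ => f a b p) (fun p _ => f a b p) ?_ ?_ ?_ ?_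
  · intro p hp
    rw [mem_inv] at hp
    rw [Finset.mem_erase, mem_inv]
    by_cases h1 : Equiv.swap a b p.1 < Equiv.swap a b p.2
    · have hf : f a b p = (Equiv.swap a b p.1, Equiv.swap a b p.2) := if_pos h1
      refine ⟨?_, ?_, ?_⟩
      · rw [hf]
        intro h2
        have h3 := congrArg Prod.fst h2
        have h4 := congrArg Prod.snd h2
        simp only at h3 h4
        have h5 : p.1 = b := by
          have := congrArg (Equiv.swap a b) h3
          simpa using this
        have h6 : p.2 = a := by
          have := congrArg (Equiv.swap a b) h4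
          simpa using this
        rw [h5, h6] at hp
        exact absurd (hab.trans hp.1) (lt_irrefl _)
      · rw [hf]; exact h1
      · rw [hf]
        simp only [Equiv.Perm.mul_apply, Equiv.swap_apply_self]
        exact hp.2
    · have hf : f a b p = p := if_neg h1
      rw [hf]
      rcases exc hab hp.1 h1 with h2 | h2 | h2
      · exfalso
        have := hp.2
        rw [h2.1, h2.2] at this
        exact absurd (hv.trans this) (lt_irrefl _)
      · refine ⟨?_, hp.1, ?_⟩
        · intro h3
          have := congrArg Prod.snd h3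
          simp only at this
          exact absurd this (ne_of_lt h2.2.1)
        · simp only [Equiv.Perm.mul_apply]
          rw [sw_ne h2.2.2 (ne_of_lt h2.2.1), h2.1, Equiv.swap_apply_left]
          have := hp.2
          rw [h2.1] at this
          exact this.trans hv
      · refine ⟨?_, hp.1, ?_⟩
        · intro h3
          have := congrArg Prod.fst h3
          simp only at this
          exact absurd this (ne_of_gt h2.1)
        · simp only [Equiv.Perm.mul_apply]
          rw [sw_ne (ne_of_gt h2.1) h2.2.2, h2.2.1, Equiv.swap_apply_right]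
          have := hp.2
          rw [h2.2.1] at this
          exact hv.trans this
  · intro p hp
    rw [Finset.mem_erase, mem_inv] at hp
    obtain ⟨hne, hp⟩ := hp
    rw [mem_inv]
    by_cases h1 : Equiv.swap a b p.1 < Equiv.swap a b p.2
    · have hf : f a b p = (Equiv.swap a b p.1, Equiv.swap a b p.2) := if_pos h1
      rw [hf]
      exact ⟨h1, hp.2⟩
    · have hf : f a b p = p := if_neg h1
      rw [hf]
      refine ⟨hp.1, ?_⟩
      have h5 := hp.2
      simp only [Equiv.Perm.mul_apply] at h5
      rcases exc hab hp.1 h1 with h2 | h2 | h2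
      · exact absurd (Prod.ext h2.1 h2.2) hne
      · rw [sw_ne h2.2.2 (ne_of_lt h2.2.1), h2.1, Equiv.swap_apply_left] at h5
        have h6 : a < p.2 := by have := hp.1; rwa [h2.1] at this
        have h7 := hbet p.2 h6 h2.2.1
        rw [h2.1]
        have h8 : v p.2 ≤ v a := by
          by_contra h9
          exact h7 ⟨not_le.mp h9, h5⟩
        exact lt_of_le_of_ne h8 (fun h => h2.2.2 (v.injective h))
      · rw [sw_ne (ne_of_gt h2.1) h2.2.2, h2.2.1, Equiv.swap_apply_right] at h5
        have h6 : p.1 < b := by have := hp.1; rwa [h2.2.1] at this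
        have h7 := hbet p.1 h2.1 h6
        rw [h2.2.1]
        have h8 : v b ≤ v p.1 := by
          by_contra h9
          exact h7 ⟨h5, not_le.mp h9⟩
        exact lt_of_le_of_ne h8 (fun h => h2.2.2 (v.injective h).symm)
  · intro p hp
    rw [mem_inv] at hp
    exact f_f hp.1
  · intro p hp
    rw [Finset.mem_erase, mem_inv] at hp
    exact f_f hp.2.1

end Pool.Agent.Work.MP_ca14f8_co.QE
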