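import Pool.Agent.Work.MP_ca14f8_co.QE.Stmts

/-!
Item QE MU: the measure `mu` decreases along transitions.
-/

set_option autoImplicit false
open Classical

namespace Pool.Agent.Work.MP_ca14f8_co.QE

namespace XMU

/-- weight of a set -/
def f {n : ℕ} (I : Finset (Fin n)) : ℕ := ∑ a ∈ I, (a.val + 1)

theorem mu_eq {n : ℕ} (w : Equiv.Perm (Fin n)) : mu w = ∑ j, f (Ic w j) := by
  unfold mu f
  have h1 : ∀ j : Fin n, ∑ a ∈ Ic w j, (a.val + 1) =
      ∑ a : Fin n, if (a < w.symm j ∧ j < w a) then (a.val + 1) else 0 := by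
    intro j
    unfold Ic
    rw [Finset.sum_filter]
  rw [Finset.sum_congr rfl (fun j _ => h1 j)]
  rw [← Equiv.sum_comp w]
  simp only [Equiv.symm_apply_apply]
  rw [Finset.sum_comm]
  unfold inv
  rw [Finset.sum_filter, ← Finset.univ_product_univ, Finset.sum_product]

theorem f_erase {n : ℕ} {I : Finset (Fin n)} {r : Fin n} (h : r ∈ I) :
    f (I.erase r) + (r.val + 1) = f I := by
  unfold f
  exact Finset.sum_erase_add _ _ h

theorem f_insert {n : ℕ} {I : Finset (Fin n)} {i : Fin n} (h : i ∉ I) :
    f (insert i I) = (i.val + 1) + f I := by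
  unfold f
  exact Finset.sum_insert h

theorem f_ui {n : ℕ} (P C : Finset (Fin n)) : f (P ∪ C) + f (P ∩ C) = f P + f C := by
  unfold f
  exact Finset.sum_union_inter

end XMU

open XMU in
/-- `mu` decreases. -/
theorem I_MU (h : StComb) : StMU := by
  intro n w v r s hT
  obtain ⟨h1, h2, h3, h4, h5⟩ := h n w v r s hT
  constructor
  · rw [mu_eq, mu_eq]
    apply Finset.sum_lt_sum
    · intro j _
      by_cases hj : j = w s
      · subst hj
        rw [h3]
        have := f_erase h2
        omega
      · rw [h1 j hj]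
    · refine ⟨w s, Finset.mem_univ _, ?_⟩
      rw [h3]
      have := f_erase h2
      omega
  · intro i hi
    obtain ⟨k1, k2, k3, k4, k5, k6, -, -, -⟩ := h5 i hi
    have hir : i < r ∧ w i < w s := by
      unfold Trs at hi
      rw [Finset.mem_filter] at hi
      exact ⟨hi.2.1, hi.2.2.1⟩
    have hne : w i ≠ w s := hir.2.ne
    have hirv : i.val < r.val := hir.1
    rw [mu_eq, mu_eq]
    have e1 := Finset.sum_erase_add Finset.univ (fun j => f (Ic (v * Equiv.swap i r) j))
      (Finset.mem_univ (w i))
    have e2 := Finset.sum_erase_add (Finset.univ.erase (w i))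
      (fun j => f (Ic (v * Equiv.swap i r) j))
      (Finset.mem_erase.2 ⟨hne.symm, Finset.mem_univ (w s)⟩)
    have e3 := Finset.sum_erase_add Finset.univ (fun j => f (Ic w j))
      (Finset.mem_univ (w i))
    have e4 := Finset.sum_erase_add (Finset.univ.erase (w i)) (fun j => f (Ic w j))
      (Finset.mem_erase.2 ⟨hne.symm, Finset.mem_univ (w s)⟩)
    have e5 : ∑ j ∈ (Finset.univ.erase (w i)).erase (w s), f (Ic (v * Equiv.swap i r) j) ≤
        ∑ j ∈ (Finset.univ.erase (w i)).erase (w s), f (Ic w j) := by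
      apply Finset.sum_le_sum
      intro j hj
      rw [Finset.mem_erase, Finset.mem_erase] at hj
      rw [k6 j hj.1 hj.2.1]
      by_cases hc : r ∈ Ic w j ∧ i ∉ Ic w j
      · rw [if_pos hc]
        have hni : i ∉ (Ic w j).erase r := fun h' => hc.2 (Finset.mem_of_mem_erase h')
        rw [f_insert hni]
        have := f_erase hc.1
        omega
      · rw [if_neg hc]
    have hni : i ∉ (Ic w (w s)).erase r ∪ Ic w (w i) := by
      rw [Finset.mem_union]
      rintro (h' | h')
      · exact k1 (Finset.mem_of_mem_erase h')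
      · exact k2 h'
    have e6 := f_ui ((Ic w (w s)).erase r) (Ic w (w i))
    have e7 := f_erase h2
    have e8 := f_insert hni
    simp only [k4, k5] at e1 e2
    rw [e8] at e1
    omega

end Pool.Agent.Work.MP_ca14f8_co.QE
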