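import Pool.Agent.Work.MP_ca14f8_co.Bd.B02
import Pool.Agent.Work.MP_ca14f8_co.Bd.B03
import Pool.Agent.Work.MP_ca14f8_co.QE.P_B2
import Pool.Agent.Work.MP_ca14f8_co.Bd.B01
import Pool.Agent.Work.MP_ca14f8_co.QE.P_BD
import Pool.Agent.Work.MP_ca14f8_co.QE.P_CovLen
import Pool.Agent.Work.MP_ca14f8_co.QE.P_MU

/-!
Assembly of the block QE of MP_ca14f8_co.
-/

set_option autoImplicit false
open Classical

namespace Pool.Agent.Work.MP_ca14f8_co.QE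

theorem StFin_holds : StFin := by
  have hE : StExp := I_Exp
  have hGE : StGEN := I_GEN
  have hTR : StTR := I_TR I_Stab (I_Monk I_CovLen (I_CovBij I_CovLen))
  have hEX : StEX := I_EX
  have hComb : StComb := I_Comb
  have hMU : StMU := I_MU hComb
  have hD : StD := I_D hGE I_L3 I_SH
  have hBb : StBb := I_Bb hD I_MM1
  have hCc : StCc := I_Cc I_MM3 (I_CcA I_MM2 hGE) (I_CcB I_MM2 hD I_Bin) (I_CcC I_MM3)
    (I_CcD I_MM3 hD I_Hard hGE)
  have hA3 : StA3 := I_A3 hTR hEX hMU (I_BbF hBb) (I_CcF hCc)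
  have hV : StVle := I_Vle hA3 I_Rep (I_Unip hE) (I_UCon hE) I_RK
  have hLift : StLift := I_Lift hComb I_Tau I_LAP
  have hA2 : StA2 := I_A2 hComb I_Tau (I_A2a hComb) hLift
  have hU : StUle := I_Ule hTR hEX hMU hA2
  have hB3 : StB3 := I_B3 (I_B3a I_Mn)
  have hLM : StLM := I_LM I_RK
  have hB1 : StB1 := I_B1 I_RK
  have hB2 : StB2 := I_B2 (I_Gen (I_Even (I_Fac I_Conj)))
  have hBfin : StBfin := I_Bfin hB1 hB2 hB3 (I_B3g hB3 hLM) I_BD
  have hC0 : StC0 := I_C0 I_Sc1 I_Tens I_Semi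
  have hC2 : StC2 := I_C2 hC0 (I_Mix I_Tens)
  exact I_Fin hU hV hBfin (I_C1 hC0) hC2 I_Tsp

end Pool.Agent.Work.MP_ca14f8_co.QE
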