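import Mathlib
import Pool.Agent.Work.MP_ca14f8_co.Blow
import Pool.Agent.Work.MP_ca14f8_co.Sum

/-!
Definitions for the quadratic exponent theorem (block QE of MP_ca14f8_co).
-/

set_option autoImplicit false
open Classical

namespace Pool.Agent.Work.MP_ca14f8_co.QE

/-- The minor of `X` with columns `I` and rows `ρ a` (`a ∈ I`). -/
noncomputable def mn {ι : Type} [Fintype ι] [DecidableEq ι] (I : Finset ι) (ρ : ι → ι) (X : Matrix ι ι ℚ) : ℚ :=
  (Matrix.of (fun (a b : I) => X (ρ a) b)).det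

/-- Product of minors, column sets `I j`. -/
noncomputable def FF {ι κ : Type} [Fintype ι] [DecidableEq ι] [Fintype κ] (I : κ → Finset ι) (ρ : κ → ι → ι)
    (X : Matrix ι ι ℚ) : ℚ := ∏ j, mn (I j) (ρ j) X

/-- The functions `X ↦ ∏ det X[ρ_j, I_j]` on the set `𝒳`. -/
noncomputable def VS {ι κ : Type} [Fintype ι] [DecidableEq ι] [Fintype κ] (𝒳 : Set (Matrix ι ι ℚ))
    (I : κ → Finset ι) : Submodule ℚ (𝒳 → ℚ) :=
  Submodule.span ℚ (Set.range (fun (ρ : κ → ι → ι) => fun X : 𝒳 => FF I ρ X.1))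

noncomputable def dV {ι κ : Type} [Fintype ι] [DecidableEq ι] [Fintype κ] (𝒳 : Set (Matrix ι ι ℚ))
    (I : κ → Finset ι) : ℕ := Module.finrank ℚ (VS 𝒳 I)

/-- `(C, ρ)` is admissible for `I`: columns in `I j`, rows outside `I j`. -/
def Adm {ι κ : Type} (I C : κ → Finset ι) (ρ : κ → ι → ι) : Prop :=
  ∀ j, C j ⊆ I j ∧ ∀ a ∈ C j, ρ j a ∉ I j

/-- The functions `B ↦ ∏ det B[ρ_j(C_j), C_j]`, `C_j ⊆ I_j`, rows outside `I_j`, on the set `𝓑`. -/
noncomputable def LS {ι κ : Type} [Fintype ι] [DecidableEq ι] [Fintype κ] (𝓑 : Set (Matrix ι ι ℚ))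
    (I : κ → Finset ι) : Submodule ℚ (𝓑 → ℚ) :=
  Submodule.span ℚ {f | ∃ (C : κ → Finset ι) (ρ : κ → ι → ι), Adm I C ρ ∧
    f = fun B : 𝓑 => FF C ρ B.1}

noncomputable def dL {ι κ : Type} [Fintype ι] [DecidableEq ι] [Fintype κ] (𝓑 : Set (Matrix ι ι ℚ))
    (I : κ → Finset ι) : ℕ := Module.finrank ℚ (LS 𝓑 I)

/-- Upper unitriangular matrices. -/
def UT (n : ℕ) : Set (Matrix (Fin n) (Fin n) ℚ) :=
  {X | (∀ a b, b < a → X a b = 0) ∧ ∀ a, X a a = 1}

/-- Strictly upper triangular matrices. -/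
def NU (n : ℕ) : Set (Matrix (Fin n) (Fin n) ℚ) := {B | ∀ a b, b ≤ a → B a b = 0}

/-- Strictly upper triangular matrices with rows in `S` and columns outside `S`. -/
def SB (n : ℕ) (S : Finset (Fin n)) : Set (Matrix (Fin n) (Fin n) ℚ) :=
  {B | ∀ a b, B a b ≠ 0 → a < b ∧ a ∈ S ∧ b ∉ S}

/-- The positions with even index. -/
def ev (n : ℕ) : Finset (Fin n) := Finset.univ.filter (fun a => a.val % 2 = 0)

/-- The columns of the Rothe diagram of `w`. -/
def Ic {n : ℕ} (w : Equiv.Perm (Fin n)) (j : Fin n) : Finset (Fin n) :=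
  Finset.univ.filter (fun a => a < w.symm j ∧ j < w a)

/-- Transition data: `r` is the last descent of `w`, `s` the last position with `w s < w r`,
`v = w t_rs`. -/
structure TrD {n : ℕ} (w v : Equiv.Perm (Fin n)) (r s : Fin n) : Prop where
  hrs : r < s
  hws : w s < w r
  inc : ∀ a b, r < a → a < b → w a < w b
  smax : ∀ k, s < k → w r < w k
  hv : v = w * Equiv.swap r s

/-- The transitions. -/
def Trs {n : ℕ} (w : Equiv.Perm (Fin n)) (r s : Fin n) : Finset (Fin n) :=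
  Finset.univ.filter (fun i => i < r ∧ w i < w s ∧ ∀ a, i < a → a < r → ¬ (w i < w a ∧ w a < w s))

/-- Measure for inductions. -/
noncomputable def mu {n : ℕ} (w : Equiv.Perm (Fin n)) : ℕ := ∑ p ∈ inv w, (p.1.val + 1)

/-- `#{k > b : t ≤ w k < w b}`. -/
def mm {n : ℕ} (w : Equiv.Perm (Fin n)) (b : Fin n) (t : ℕ) : ℕ :=
  (Finset.univ.filter (fun k => b < k ∧ t ≤ (w k).val ∧ w k < w b)).card

variable {n : ℕ} {M : Type} [AddCommGroup M] [Module ℚ M]

/-- The relations of the Lie algebra of strictly upper triangular matrices. -/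
def IsRep (e : Fin n → Fin n → Module.End ℚ M) : Prop :=
  ∀ a b c d, a < b → c < d →
    e a b * e c d - e c d * e a b = (if b = c then e a d else 0) - (if a = d then e c b else 0)

/-- `∑_a σ_a e_{ab}`. -/
noncomputable def Lin (e : Fin n → Fin n → Module.End ℚ M) (b : Fin n) (σ : Fin n → ℚ) :
    Module.End ℚ M := ∑ a, σ a • e a b

/-- support condition: `σ` is supported on `{a < b : t ≤ w a}`. -/
def Sup (w : Equiv.Perm (Fin n)) (b : Fin n) (t : ℕ) (σ : Fin n → ℚ) : Prop :=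
  ∀ a, σ a ≠ 0 → a < b ∧ t ≤ (w a).val

/-- The constraints of `w`, modulo `F`. -/
def ConF (w : Equiv.Perm (Fin n)) (e : Fin n → Fin n → Module.End ℚ M) (F : Submodule ℚ M)
    (u : M) : Prop :=
  ∀ (b : Fin n) (t : ℕ) (σ : Fin n → ℚ), Sup w b t σ → ((Lin e b σ) ^ (mm w b t + 1)) u ∈ F

/-- The constraints of `w`. -/
def Con (w : Equiv.Perm (Fin n)) (e : Fin n → Fin n → Module.End ℚ M) (u : M) : Prop :=
  ∀ (b : Fin n) (t : ℕ) (σ : Fin n → ℚ), Sup w b t σ → ((Lin e b σ) ^ (mm w b t + 1)) u = 0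

/-- `F` is stable under all `e a b`, `a < b`. -/
def Stab (e : Fin n → Fin n → Module.End ℚ M) (F : Submodule ℚ M) : Prop :=
  ∀ a b, a < b → ∀ x ∈ F, e a b x ∈ F

end Pool.Agent.Work.MP_ca14f8_co.QE
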